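import Mathlib

/-! Families of subtrees given abstractly by the rooted-top property. -/

namespace Pool.Agent.X53.Frag

open Finset Classical

variable {τ ι : Type}

/-- abstract system of subtrees: node sets `S u`, tops, and a depth function -/
structure Sys (S : ι → Set τ) (top : ι → τ) (d : τ → ℕ) : Prop where
  mem : ∀ u, top u ∈ S u
  f2 : ∀ u v, (S u ∩ S v).Nonempty → d (top u) ≤ d (top v) → top v ∈ S u

/-- pairwise disjoint node sets -/
def PD (S : ι → Set τ) (B : Finset ι) : Prop := ∀ u ∈ B, ∀ v ∈ B, u ≠ v → ¬ (S u ∩ S v).Nonempty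

theorem disjoint_subfamily {S : ι → Set τ} {top : ι → τ} {d : τ → ℕ} (h : Sys S top d) (f : ℕ) :
    ∀ (n : ℕ) (A : Finset ι), A.card ≤ n → (∀ t : τ, (A.filter (fun u => t ∈ S u)).card ≤ f) →
      ∃ B ⊆ A, PD S B ∧ A.card ≤ f * B.card := by
  intro n
  induction n with
  | zero =>
    intro A hA _
    refine ⟨∅, Finset.empty_subset _, fun u hu => absurd hu (Finset.notMem_empty u), ?_⟩
    simpa using hA
  | succ n ih =>
    intro A hA hf
    rcases A.eq_empty_or_nonempty with rfl | hne
    · exact ⟨∅, Finset.empty_subset _, fun u hu => absurd hu (Finset.notMem_empty u), by simp⟩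
    obtain ⟨v, hv, hmax⟩ := Finset.exists_max_image A (fun u => d (top u)) hne
    set R := A.filter (fun u => (S u ∩ S v).Nonempty) with hR
    have hRf : R.card ≤ f := by
      refine le_trans (Finset.card_le_card ?_) (hf (top v))
      intro u hu
      rw [hR, Finset.mem_filter] at hu
      rw [Finset.mem_filter]
      exact ⟨hu.1, h.f2 u v hu.2 (hmax u hu.1)⟩
    have hvR : v ∈ R := by
      rw [hR, Finset.mem_filter]
      exact ⟨hv, top v, h.mem v, h.mem v⟩
    have hsub : R ⊆ A := Finset.filter_subset _ _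
    have hcard : (A \ R).card + R.card = A.card := Finset.card_sdiff_add_card_eq_card hsub
    have hRpos : 0 < R.card := Finset.card_pos.2 ⟨v, hvR⟩
    obtain ⟨B, hBA, hB, hBc⟩ := ih (A \ R) (by omega) (by
      intro t
      refine le_trans (Finset.card_le_card ?_) (hf t)
      intro u hu
      rw [Finset.mem_filter] at hu ⊢
      exact ⟨(Finset.mem_sdiff.1 hu.1).1, hu.2⟩)
    have hnot : ∀ u ∈ B, ¬ (S u ∩ S v).Nonempty := by
      intro u hu hcon
      have h1 := Finset.mem_sdiff.1 (hBA hu)
      apply h1.2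
      rw [hR, Finset.mem_filter]
      exact ⟨h1.1, hcon⟩
    have hvB : v ∉ B := fun hvB => (Finset.mem_sdiff.1 (hBA hvB)).2 hvR
    refine ⟨insert v B, ?_, ?_, ?_⟩
    · intro u hu
      rw [Finset.mem_insert] at hu
      rcases hu with rfl | hu
      · exact hv
      · exact (Finset.mem_sdiff.1 (hBA hu)).1
    · intro u hu w hw huw
      rw [Finset.mem_insert] at hu hw
      rcases hu with rfl | hu
      · rcases hw with rfl | hw
        · exact absurd rfl huw
        · intro hcon
          apply hnot w hw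
          rwa [Set.inter_comm]
      · rcases hw with rfl | hw
        · exact hnot u hu
        · exact hB u hu w hw huw
    · rw [Finset.card_insert_of_notMem hvB]
      calc A.card = (A \ R).card + R.card := hcard.symm
        _ ≤ f * B.card + f := by omega
        _ = f * (B.card + 1) := by ring

theorem good_family {S : ι → Set τ} {top : ι → τ} {d : τ → ℕ} (h : Sys S top d)
    (I : Finset ι) (hI : PD S I) (J : ι → Finset ι) (k : ℕ)
    (hJ : ∀ a ∈ I, PD S (J a)) (hint : ∀ a ∈ I, ∀ b ∈ J a, (S b ∩ S a).Nonempty)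
    (hk : ∀ a ∈ I, k ≤ (J a).card) :
    ∃ B : Finset ι, (∀ b ∈ B, ∃ a ∈ I, b ∈ J a) ∧ PD S B ∧ k * I.card ≤ B.card + 2 * I.card := by
  let J' : ι → Finset ι := fun a => (J a).filter (fun b => d (top a) < d (top b))
  have hJ'c : ∀ a ∈ I, (J a).card ≤ (J' a).card + 1 := by
    intro a ha
    have h1 : ((J a).filter (fun b => ¬ d (top a) < d (top b))).card ≤ 1 := by
      rw [Finset.card_le_one]
      intro b hb b' hb'
      rw [Finset.mem_filter] at hb hb'
      by_contra hne
      have h2 := h.f2 b a (hint a ha b hb.1) (not_lt.1 hb.2)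
      have h3 := h.f2 b' a (hint a ha b' hb'.1) (not_lt.1 hb'.2)
      exact hJ a ha b hb.1 b' hb'.1 hne ⟨top a, h2, h3⟩
    have h2 := Finset.card_filter_add_card_filter_not (s := J a) (fun b => d (top a) < d (top b))
    have h3 : (J' a).card = ((J a).filter (fun b => d (top a) < d (top b))).card := rfl
    omega
  -- top of b lies in S a
  have htop : ∀ a ∈ I, ∀ b ∈ J' a, top b ∈ S a := by
    intro a ha b hb
    rw [Finset.mem_filter] at hb
    apply h.f2 a b _ hb.2.le
    rw [Set.inter_comm]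
    exact hint a ha b hb.1
  let Bad : ι → Finset ι := fun a => (J' a).filter
    (fun b => ∃ a' ∈ I, a' ≠ a ∧ (S b ∩ S a').Nonempty)
  let Good : ι → Finset ι := fun a => (J' a).filter
    (fun b => ¬ ∃ a' ∈ I, a' ≠ a ∧ (S b ∩ S a').Nonempty)
  have hGB : ∀ a, (Bad a).card + (Good a).card = (J' a).card := fun a =>
    Finset.card_filter_add_card_filter_not _
  -- for a bad pair choose the minimal a'
  have hchoice : ∀ x : ι × ι, ∃ a', (x.1 ∈ I ∧ x.2 ∈ Bad x.1) →
      (a' ∈ I ∧ a' ≠ x.1 ∧ (S x.2 ∩ S a').Nonempty ∧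
        ∀ c ∈ I, c ≠ x.1 → (S x.2 ∩ S c).Nonempty → d (top a') ≤ d (top c)) := by
    rintro ⟨a, b⟩
    by_cases hx : a ∈ I ∧ b ∈ Bad a
    · have hb := hx.2
      rw [Finset.mem_filter] at hb
      obtain ⟨a0, ha0, hne0, hint0⟩ := hb.2
      obtain ⟨a', ha', hmin⟩ := Finset.exists_min_image
        (I.filter (fun c => c ≠ a ∧ (S b ∩ S c).Nonempty)) (fun c => d (top c))
        ⟨a0, Finset.mem_filter.2 ⟨ha0, hne0, hint0⟩⟩
      rw [Finset.mem_filter] at ha'
      exact ⟨a', fun _ => ⟨ha'.1, ha'.2.1, ha'.2.2, fun c hc hca hcb =>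
        hmin c (Finset.mem_filter.2 ⟨hc, hca, hcb⟩)⟩⟩
    · exact ⟨a, fun h' => absurd h' hx⟩
  choose φ hφ using hchoice
  -- properties of φ
  have hφtop : ∀ a b, a ∈ I → b ∈ Bad a → top (φ (a, b)) ∈ S b ∧
      d (top b) < d (top (φ (a, b))) := by
    intro a b ha hb
    have h1 := hφ (a, b) ⟨ha, hb⟩
    have hbJ : b ∈ J' a := (Finset.mem_filter.1 hb).1
    have h2 : ¬ d (top (φ (a, b))) ≤ d (top b) := by
      intro hle
      have h3 : top b ∈ S (φ (a, b)) := by
        apply h.f2 _ _ _ hle
        rw [Set.inter_comm]; exact h1.2.2.1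
      exact hI a ha _ h1.1 h1.2.1.symm ⟨top b, htop a ha b hbJ, h3⟩
    exact ⟨h.f2 _ _ h1.2.2.1 (not_le.1 h2).le, not_le.1 h2⟩
  have hbad : (I.sigma Bad).card ≤ I.card := by
    apply Finset.card_le_card_of_injOn (fun x => φ (x.1, x.2))
    · intro x hx
      rw [Finset.mem_coe, Finset.mem_sigma] at hx
      exact (hφ (x.1, x.2) hx).1
    · rintro ⟨a, b⟩ hx ⟨a', b'⟩ hx' heq
      rw [Finset.mem_coe, Finset.mem_sigma] at hx hx'
      simp only at hx hx' heq
      have h1 := hφtop a b hx.1 hx.2
      have h1' := hφtop a' b' hx'.1 hx'.2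
      rw [← heq] at h1'
      have hbJ : b ∈ J' a := (Finset.mem_filter.1 hx.2).1
      have hbJ' : b' ∈ J' a' := (Finset.mem_filter.1 hx'.2).1
      by_cases haa : a = a'
      · subst haa
        by_cases hbb : b = b'
        · rw [hbb]
        · exact absurd ⟨top (φ (a, b)), h1.1, h1'.1⟩
            (hJ a hx.1 b (Finset.mem_filter.1 hbJ).1 b' (Finset.mem_filter.1 hbJ').1 hbb)
      · exfalso
        have hmeet : (S b ∩ S b').Nonempty := ⟨top (φ (a, b)), h1.1, h1'.1⟩
        rcases le_total (d (top b)) (d (top b')) with hle | hle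
        · have h2 : top b' ∈ S b := h.f2 _ _ hmeet hle
          have h3 : top b' ∈ S a' := htop a' hx'.1 b' hbJ'
          have h4 := (hφ (a, b) hx).2.2.2 a' hx'.1 (fun h5 => haa h5.symm) ⟨top b', h2, h3⟩
          have h5 : d (top a') < d (top b') := (Finset.mem_filter.1 hbJ').2
          have h6 := h1'.2
          omega
        · have h2 : top b ∈ S b' := h.f2 _ _ (by rwa [Set.inter_comm]) hle
          have h3 : top b ∈ S a := htop a hx.1 b hbJ
          have h4 := (hφ (a', b') hx').2.2.2 a hx.1 haa ⟨top b, h2, h3⟩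
          have h5 : d (top a) < d (top b) := (Finset.mem_filter.1 hbJ).2
          have h6 := h1.2
          rw [← heq] at h4
          omega
  rw [Finset.card_sigma] at hbad
  -- good ones for different a are disjoint
  have hgood : ∀ a ∈ I, ∀ a' ∈ I, a ≠ a' → ∀ b ∈ Good a, ∀ b' ∈ Good a',
      ¬ (S b ∩ S b').Nonempty := by
    intro a ha a' ha' hne b hb b' hb' hmeet
    have hb1 := Finset.mem_filter.1 hb
    have hb1' := Finset.mem_filter.1 hb'
    rcases le_total (d (top b)) (d (top b')) with hle | hle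
    · apply hb1.2
      exact ⟨a', ha', hne.symm, top b', h.f2 _ _ hmeet hle, htop a' ha' b' hb1'.1⟩
    · apply hb1'.2
      exact ⟨a, ha, hne, top b, h.f2 _ _ (by rwa [Set.inter_comm]) hle, htop a ha b hb1.1⟩
  refine ⟨I.biUnion Good, ?_, ?_, ?_⟩
  · intro b hb
    rw [Finset.mem_biUnion] at hb
    obtain ⟨a, ha, hb⟩ := hb
    exact ⟨a, ha, (Finset.mem_filter.1 (Finset.mem_filter.1 hb).1).1⟩
  · intro b hb b' hb' hne
    rw [Finset.mem_biUnion] at hb hb'
    obtain ⟨a, ha, hb⟩ := hb
    obtain ⟨a', ha', hb'⟩ := hb'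
    by_cases haa : a = a'
    · subst haa
      exact hJ a ha b (Finset.mem_filter.1 (Finset.mem_filter.1 hb).1).1 b'
        (Finset.mem_filter.1 (Finset.mem_filter.1 hb').1).1 hne
    · exact hgood a ha a' ha' haa b hb b' hb'
  · have hcard : (I.biUnion Good).card = ∑ a ∈ I, (Good a).card := by
      apply Finset.card_biUnion
      intro a ha a' ha' hne
      show Disjoint (Good a) (Good a')
      rw [Finset.disjoint_left]
      intro b hb hb'
      exact hgood a ha a' ha' hne b hb b hb' ⟨top b, h.mem b, h.mem b⟩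
    rw [hcard]
    have h1 : ∑ a ∈ I, k ≤ ∑ a ∈ I, ((Good a).card + (Bad a).card + 1) := by
      apply Finset.sum_le_sum
      intro a ha
      have := hGB a
      have := hJ'c a ha
      have := hk a ha
      omega
    rw [Finset.sum_add_distrib, Finset.sum_add_distrib, Finset.sum_const, Finset.sum_const,
      smul_eq_mul, smul_eq_mul] at h1
    nlinarith

end Pool.Agent.X53.Frag
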