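import Mathlib

/-! Connected subsets of a tree: the rooted-top property. -/

namespace Pool.Agent.X53.Frag

open SimpleGraph

variable {τ : Type} {T : SimpleGraph τ}

/-- the unique path from the root -/
noncomputable def pth (hT : T.IsTree) (ρ x : τ) : T.Walk ρ x := (hT.existsUnique_path ρ x).choose

theorem pth_isPath (hT : T.IsTree) (ρ x : τ) : (pth hT ρ x).IsPath :=
  (hT.existsUnique_path ρ x).choose_spec.1

theorem pth_unique (hT : T.IsTree) (ρ x : τ) (p : T.Walk ρ x) (hp : p.IsPath) :
    p = pth hT ρ x :=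
  (hT.existsUnique_path ρ x).choose_spec.2 p hp

/-- the depth -/
noncomputable def dep (hT : T.IsTree) (ρ x : τ) : ℕ := (pth hT ρ x).length

theorem adj_cases (hT : T.IsTree) (ρ : τ) {u v : τ} (h : T.Adj u v) :
    (pth hT ρ v = (pth hT ρ u).concat h) ∨ (pth hT ρ u = (pth hT ρ v).concat h.symm) := by
  classical
  by_cases hv : v ∈ (pth hT ρ u).support
  · right
    exact hT.isAcyclic.path_concat (pth_isPath hT ρ v) (pth_isPath hT ρ u) h.symm hv
  · left
    symm
    apply pth_unique
    exact (pth_isPath hT ρ u).concat hv h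

theorem dep_lt (hT : T.IsTree) (ρ : τ) {z t : τ} (hz : z ∈ (pth hT ρ t).support) (hne : z ≠ t) :
    dep hT ρ z < dep hT ρ t := by
  classical
  have h1 : (pth hT ρ t).takeUntil z hz = pth hT ρ z :=
    pth_unique hT ρ z _ ((pth_isPath hT ρ t).takeUntil hz)
  unfold dep
  rw [← h1]
  exact Walk.length_takeUntil_lt hz hne

/-- `S` is a connected set of nodes and `t` a node of `S` of minimal depth: then `t` lies on the
path from the root to each `x ∈ S`, and the nodes of this path of depth at least that of `t` lie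
in `S`. -/
theorem anc (hT : T.IsTree) (ρ : τ) (S : Set τ) (hS : (T.induce S).Preconnected) (t : τ)
    (ht : t ∈ S) (hmin : ∀ y ∈ S, dep hT ρ t ≤ dep hT ρ y) (x : τ) (hx : x ∈ S) :
    t ∈ (pth hT ρ x).support ∧
    ∀ z ∈ (pth hT ρ x).support, dep hT ρ t ≤ dep hT ρ z → z ∈ S := by
  obtain ⟨w⟩ := hS ⟨t, ht⟩ ⟨x, hx⟩
  have key : ∀ (a b : S) (w : (T.induce S).Walk a b),
      (t ∈ (pth hT ρ a.1).support ∧
        ∀ z ∈ (pth hT ρ a.1).support, dep hT ρ t ≤ dep hT ρ z → z ∈ S) →
      (t ∈ (pth hT ρ b.1).support ∧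
        ∀ z ∈ (pth hT ρ b.1).support, dep hT ρ t ≤ dep hT ρ z → z ∈ S) := by
    intro a b w
    induction w with
    | nil => exact id
    | @cons a b c h p ih =>
      intro hQ
      apply ih
      have hab : T.Adj a.1 b.1 := h
      rcases adj_cases hT ρ hab with h1 | h1
      · rw [h1]
        refine ⟨?_, fun z hz hzd => ?_⟩
        · rw [Walk.support_concat]
          exact List.mem_append_left _ hQ.1
        · rw [Walk.support_concat, List.mem_append] at hz
          rcases hz with hz | hz
          · exact hQ.2 z hz hzd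
          · rw [List.mem_singleton] at hz
            rw [hz]; exact b.2
      · refine ⟨?_, fun z hz hzd => ?_⟩
        · have h2 := hQ.1
          rw [h1, Walk.support_concat, List.mem_append] at h2
          rcases h2 with h2 | h2
          · exact h2
          · exfalso
            rw [List.mem_singleton] at h2
            have h3 := hmin b.1 b.2
            have h4 : dep hT ρ a.1 = dep hT ρ b.1 + 1 := by
              unfold dep
              rw [h1, Walk.length_concat]
            rw [h2] at h3
            omega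
        · apply hQ.2 z _ hzd
          rw [h1, Walk.support_concat]
          exact List.mem_append_left _ hz
  apply key ⟨t, ht⟩ ⟨x, hx⟩ w
  refine ⟨Walk.end_mem_support _, fun z hz hzd => ?_⟩
  by_contra hzS
  have hne : z ≠ t := fun h => hzS (h ▸ ht)
  have h9 : dep hT ρ z < dep hT ρ t := dep_lt hT ρ hz hne
  omega

/-- every non-empty set of nodes has a node of minimal depth -/
theorem exists_top (hT : T.IsTree) (ρ : τ) (S : Set τ) (hS : S.Nonempty) :
    ∃ t ∈ S, ∀ y ∈ S, dep hT ρ t ≤ dep hT ρ y := by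
  classical
  have hex : ∃ n, ∃ t ∈ S, dep hT ρ t = n := by
    obtain ⟨t, ht⟩ := hS
    exact ⟨_, t, ht, rfl⟩
  obtain ⟨t, ht, htn⟩ := Nat.find_spec hex
  refine ⟨t, ht, fun y hy => ?_⟩
  rw [htn]
  exact Nat.find_min' hex ⟨y, hy, rfl⟩

/-- the key property of two intersecting connected sets -/
theorem top_mem (hT : T.IsTree) (ρ : τ) (S S' : Set τ) (hS : (T.induce S).Preconnected)
    (hS' : (T.induce S').Preconnected) (t t' : τ) (ht : t ∈ S) (ht' : t' ∈ S')
    (hmin : ∀ y ∈ S, dep hT ρ t ≤ dep hT ρ y) (hmin' : ∀ y ∈ S', dep hT ρ t' ≤ dep hT ρ y)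
    (hint : (S ∩ S').Nonempty) (hle : dep hT ρ t ≤ dep hT ρ t') : t' ∈ S := by
  obtain ⟨x, hx, hx'⟩ := hint
  have h1 := anc hT ρ S hS t ht hmin x hx
  have h2 := anc hT ρ S' hS' t' ht' hmin' x hx'
  exact h1.2 t' h2.1 hle

end Pool.Agent.X53.Frag
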