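import Mathlib
import Pool.Agent.X53.Frag.Tree
import Pool.Agent.X53.Frag.Sys

/-! Fractional tree-alpha fragility implies bounded independence degeneracy. -/

namespace Pool.Agent.X53.Frag

open Finset Classical

/-- independent finite sets of vertices -/
def Indep {V : Type} (G : SimpleGraph V) (A : Finset V) : Prop := ∀ a ∈ A, ∀ b ∈ A, ¬ G.Adj a b

/-- `tree-α(G) ≤ f` -/
def TreeAlphaLE {V : Type} (G : SimpleGraph V) (f : ℕ) : Prop :=
  ∃ (τ : Type) (T : SimpleGraph τ) (X : τ → Set V), T.IsTree ∧ (∀ v, ∃ t, v ∈ X t) ∧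
    (∀ u v, G.Adj u v → ∃ t, u ∈ X t ∧ v ∈ X t) ∧
    (∀ v, (T.induce {t | v ∈ X t}).Preconnected) ∧
    ∀ t, ∀ A : Finset V, (∀ a ∈ A, a ∈ X t) → Indep G A → A.card ≤ f

theorem expand {V : Type} (G : SimpleGraph V) (f k : ℕ) (hG : TreeAlphaLE G f) (I : Finset V)
    (hIne : I.Nonempty) (hI : Indep G I) (J : V → Finset V) (hJ : ∀ a ∈ I, Indep G (J a))
    (hadj : ∀ a ∈ I, ∀ b ∈ J a, G.Adj a b) (hk : ∀ a ∈ I, f * k ≤ (J a).card) :
    ∃ B : Finset V, (∀ b ∈ B, ∃ a ∈ I, b ∈ J a) ∧ Indep G B ∧
      k * I.card ≤ f * B.card + 2 * I.card := by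
  obtain ⟨τ, T, X, hT, hcov, hedge, hconn, hα⟩ := hG
  obtain ⟨ρ⟩ := hT.connected.nonempty
  have hne : ∀ v : V, ({t | v ∈ X t} : Set τ).Nonempty := hcov
  choose top htop hmin using fun v : V => exists_top hT ρ {t | v ∈ X t} (hne v)
  have hsys : Sys (fun v : V => {t | v ∈ X t}) top (dep hT ρ) := by
    refine ⟨htop, fun u v hint hle => ?_⟩
    exact top_mem hT ρ _ _ (hconn u) (hconn v) (top u) (top v) (htop u) (htop v) (hmin u) (hmin v)
      hint hle
  have hfew : ∀ A : Finset V, Indep G A → ∀ t : τ,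
      (A.filter (fun u => t ∈ (fun v : V => {t | v ∈ X t}) u)).card ≤ f := by
    intro A hA t
    apply hα t
    · intro a ha
      exact (Finset.mem_filter.1 ha).2
    · intro a ha b hb
      exact hA a (Finset.mem_filter.1 ha).1 b (Finset.mem_filter.1 hb).1
  obtain ⟨I1, hI1, hPD, hIc⟩ := disjoint_subfamily hsys f I.card I le_rfl (hfew I hI)
  have hf : 0 < f := by
    rcases Nat.eq_zero_or_pos f with h0 | h0
    · rw [h0, zero_mul] at hIc
      have := Finset.card_pos.2 hIne
      omega
    · exact h0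
  have hchoice : ∀ a, ∃ J1 : Finset V, a ∈ I1 →
      (J1 ⊆ J a ∧ PD (fun v : V => {t | v ∈ X t}) J1 ∧ k ≤ J1.card) := by
    intro a
    by_cases ha : a ∈ I1
    · obtain ⟨J1, h1, h2, h3⟩ := disjoint_subfamily hsys f (J a).card (J a) le_rfl
        (hfew (J a) (hJ a (hI1 ha)))
      refine ⟨J1, fun _ => ⟨h1, h2, ?_⟩⟩
      have h4 := hk a (hI1 ha)
      exact Nat.le_of_mul_le_mul_left (h4.trans h3) hf
    · exact ⟨∅, fun h => absurd h ha⟩
  choose J1 hJ1 using hchoice
  obtain ⟨B, hB1, hB2, hB3⟩ := good_family hsys I1 hPD J1 k (fun a ha => (hJ1 a ha).2.1)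
    (by
      intro a ha b hb
      obtain ⟨t, h1, h2⟩ := hedge a b (hadj a (hI1 ha) b ((hJ1 a ha).1 hb))
      exact ⟨t, h2, h1⟩)
    (fun a ha => (hJ1 a ha).2.2)
  refine ⟨B, ?_, ?_, ?_⟩
  · intro b hb
    obtain ⟨a, ha, hba⟩ := hB1 b hb
    exact ⟨a, hI1 ha, (hJ1 a ha).1 hba⟩
  · intro a ha b hb hab
    by_cases hne' : a = b
    · rw [hne'] at hab; exact G.loopless.irrefl b hab
    · obtain ⟨t, h1, h2⟩ := hedge a b hab
      exact hB2 a ha b hb hne' ⟨t, h1, h2⟩
  · rcases le_or_gt k 2 with hk2 | hk2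
    · have : k * I.card ≤ 2 * I.card := Nat.mul_le_mul_right _ hk2
      omega
    · obtain ⟨k', rfl⟩ : ∃ k', k = k' + 2 := ⟨k - 2, by omega⟩
      have h1 : k' * I1.card ≤ B.card := by nlinarith
      have h2 : k' * I.card ≤ f * B.card := by
        calc k' * I.card ≤ k' * (f * I1.card) := Nat.mul_le_mul_left _ hIc
          _ = f * (k' * I1.card) := by ring
          _ ≤ f * B.card := Nat.mul_le_mul_left _ h1
      nlinarith

theorem main {V : Type} [Fintype V] (G : SimpleGraph V) (f m : ℕ) (hm : 0 < m)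
    (C : Fin m → Set V)
    (hcov : ∀ v, 3 * m ≤ 4 * (Finset.univ.filter (fun c => v ∈ C c)).card)
    (hC : ∀ c, TreeAlphaLE (G.induce (C c)) f) (S : Set V) (hS : S.Nonempty) :
    ∃ v ∈ S, ∀ J : Finset V, (∀ b ∈ J, b ∈ S ∧ G.Adj v b) → Indep G J →
      J.card ≤ 8 * f ^ 2 + 6 * f := by
  by_contra hcon
  push Not at hcon
  set k := 4 * f + 3 with hkdef
  set K := 2 * (f * k) with hK
  have hKle : K = 8 * f ^ 2 + 6 * f := by rw [hK, hkdef]; ring
  -- choose neighbourhoods
  have hch : ∀ v, ∃ J : Finset V, v ∈ S →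
      ((∀ b ∈ J, b ∈ S ∧ G.Adj v b) ∧ Indep G J ∧ J.card = K) := by
    intro v
    by_cases hv : v ∈ S
    · obtain ⟨J, h1, h2, h3⟩ := hcon v hv
      obtain ⟨J', hJ', hc⟩ := Finset.exists_subset_card_eq (s := J) (n := K) (by omega)
      exact ⟨J', fun _ => ⟨fun b hb => h1 b (hJ' hb),
        fun a ha b hb => h2 a (hJ' ha) b (hJ' hb), hc⟩⟩
    · exact ⟨∅, fun h => absurd h hv⟩
  choose J hJ using hch
  -- a maximum independent set in S
  obtain ⟨I, hImem, hImax⟩ := Finset.exists_max_image
    ((Finset.univ : Finset (Finset V)).filter (fun A => (∀ a ∈ A, a ∈ S) ∧ Indep G A))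
    Finset.card ⟨∅, by simp [Indep]⟩
  rw [Finset.mem_filter] at hImem
  obtain ⟨-, hIS, hI⟩ := hImem
  have hmax : ∀ A : Finset V, (∀ a ∈ A, a ∈ S) → Indep G A → A.card ≤ I.card :=
    fun A h1 h2 => hImax A (Finset.mem_filter.2 ⟨Finset.mem_univ _, h1, h2⟩)
  have hn : 0 < I.card := by
    obtain ⟨v, hv⟩ := hS
    have := hmax {v} (by intro a ha; rw [Finset.mem_singleton] at ha; rw [ha]; exact hv)
      (by intro a ha b hb hab
          rw [Finset.mem_singleton] at ha hb
          rw [ha, hb] at hab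
          exact G.loopless.irrefl v hab)
    simpa using this
  -- misses
  have hmiss : ∀ v, 4 * (Finset.univ.filter (fun c => v ∉ C c)).card ≤ m := by
    intro v
    have h1 := hcov v
    have h2 := Finset.card_filter_add_card_filter_not (s := (Finset.univ : Finset (Fin m)))
      (fun c => v ∈ C c)
    rw [Finset.card_univ, Fintype.card_fin] at h2
    omega
  let P : V → Fin m → Prop := fun a c => a ∈ C c ∧ K ≤ 2 * ((J a).filter (fun b => b ∈ C c)).card
  have hgood : ∀ a ∈ I, m ≤ 4 * (Finset.univ.filter (fun c => P a c)).card := by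
    intro a ha
    have hJa := hJ a (hIS a ha)
    set bad2 := Finset.univ.filter
      (fun c : Fin m => ¬ K ≤ 2 * ((J a).filter (fun b => b ∈ C c)).card) with hbad2
    have hsum : 4 * ∑ c : Fin m, ((J a).filter (fun b => b ∉ C c)).card ≤ K * m := by
      have e1 : ∑ c : Fin m, ((J a).filter (fun b => b ∉ C c)).card =
          ∑ b ∈ J a, (Finset.univ.filter (fun c : Fin m => b ∉ C c)).card := by
        simp only [Finset.card_filter]
        exact Finset.sum_comm
      rw [e1, Finset.mul_sum]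
      calc ∑ b ∈ J a, 4 * (Finset.univ.filter (fun c : Fin m => b ∉ C c)).card
          ≤ ∑ _b ∈ J a, m := Finset.sum_le_sum (fun b _ => hmiss b)
        _ = K * m := by rw [Finset.sum_const, hJa.2.2, smul_eq_mul]
    have hb2 : (K + 1) * bad2.card ≤ 2 * ∑ c : Fin m, ((J a).filter (fun b => b ∉ C c)).card := by
      calc (K + 1) * bad2.card = ∑ _c ∈ bad2, (K + 1) := by
            rw [Finset.sum_const, smul_eq_mul, mul_comm]
        _ ≤ ∑ c ∈ bad2, 2 * ((J a).filter (fun b => b ∉ C c)).card := by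
            apply Finset.sum_le_sum
            intro c hc
            rw [hbad2, Finset.mem_filter] at hc
            have h2 := Finset.card_filter_add_card_filter_not (s := J a) (fun b => b ∈ C c)
            rw [hJa.2.2] at h2
            omega
        _ = 2 * ∑ c ∈ bad2, ((J a).filter (fun b => b ∉ C c)).card := by rw [Finset.mul_sum]
        _ ≤ 2 * ∑ c : Fin m, ((J a).filter (fun b => b ∉ C c)).card := by
            apply Nat.mul_le_mul_left
            exact Finset.sum_le_sum_of_subset (Finset.subset_univ _)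
    have hb2' : 2 * bad2.card ≤ m := by
      by_contra hlt
      push Not at hlt
      have h3 : (K + 1) * (m + 1) ≤ (K + 1) * (2 * bad2.card) :=
        Nat.mul_le_mul_left _ hlt
      nlinarith
    have hcover : (Finset.univ : Finset (Fin m)) ⊆
        (Finset.univ.filter (fun c => P a c)) ∪
          ((Finset.univ.filter (fun c => a ∉ C c)) ∪ bad2) := by
      intro c _
      by_cases h1 : a ∈ C c
      · by_cases h2 : K ≤ 2 * ((J a).filter (fun b => b ∈ C c)).card
        · exact Finset.mem_union_left _ (Finset.mem_filter.2 ⟨Finset.mem_univ _, h1, h2⟩)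
        · exact Finset.mem_union_right _ (Finset.mem_union_right _
            (Finset.mem_filter.2 ⟨Finset.mem_univ _, h2⟩))
      · exact Finset.mem_union_right _ (Finset.mem_union_left _
            (Finset.mem_filter.2 ⟨Finset.mem_univ _, h1⟩))
    have h4 := Finset.card_le_card hcover
    rw [Finset.card_univ, Fintype.card_fin] at h4
    have h5 := Finset.card_union_le (Finset.univ.filter (fun c => P a c))
      ((Finset.univ.filter (fun c => a ∉ C c)) ∪ bad2)
    have h6 := Finset.card_union_le (Finset.univ.filter (fun c => a ∉ C c)) bad2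
    have h7 := hmiss a
    omega
  -- double counting
  have hdc : I.card * m ≤ ∑ c : Fin m, 4 * (I.filter (fun a => P a c)).card := by
    rw [← Finset.mul_sum]
    have e1 : ∑ c : Fin m, (I.filter (fun a => P a c)).card =
        ∑ a ∈ I, (Finset.univ.filter (fun c : Fin m => P a c)).card := by
      simp only [Finset.card_filter]
      exact Finset.sum_comm
    rw [e1, Finset.mul_sum]
    calc I.card * m = ∑ _a ∈ I, m := by rw [Finset.sum_const, smul_eq_mul]
      _ ≤ _ := Finset.sum_le_sum hgood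
  obtain ⟨c, hc⟩ : ∃ c : Fin m, I.card ≤ 4 * (I.filter (fun a => P a c)).card := by
    by_contra hcon2
    push Not at hcon2
    have h1 : ∑ c : Fin m, 4 * (I.filter (fun a => P a c)).card < ∑ _c : Fin m, I.card := by
      apply Finset.sum_lt_sum_of_nonempty
      · exact ⟨⟨0, hm⟩, Finset.mem_univ _⟩
      · intro c _; exact hcon2 c
    rw [Finset.sum_const, Finset.card_univ, Fintype.card_fin, smul_eq_mul, mul_comm] at h1
    omega
  set Nc := I.filter (fun a => P a c) with hNc
  have hNpos : 0 < Nc.card := by omega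
  -- transfer to the induced subgraph
  let I' : Finset (C c) := Nc.subtype (fun v => v ∈ C c)
  let J' : C c → Finset (C c) := fun a => (J a.1).subtype (fun v => v ∈ C c)
  have hI'c : I'.card = Nc.card := by
    show (Nc.subtype (fun v => v ∈ C c)).card = _
    rw [Finset.card_subtype]
    congr 1
    apply Finset.filter_true_of_mem
    intro a ha
    rw [hNc, Finset.mem_filter] at ha
    exact ha.2.1
  have hmemI' : ∀ a ∈ I', a.1 ∈ Nc := fun a ha => (Finset.mem_subtype.1 ha)
  have hmemJ' : ∀ a b, b ∈ J' a → b.1 ∈ J a.1 := fun a b hb => (Finset.mem_subtype.1 hb)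
  have hNI : ∀ a ∈ Nc, a ∈ I := fun a ha => (Finset.mem_filter.1 ha).1
  obtain ⟨B, hB1, hB2, hB3⟩ := expand (G.induce (C c)) f k (hC c) I'
    (by rw [← Finset.card_pos, hI'c]; exact hNpos)
    (by
      intro a ha b hb hab
      exact hI a.1 (hNI _ (hmemI' a ha)) b.1 (hNI _ (hmemI' b hb)) hab)
    J'
    (by
      intro a ha x hx y hy hxy
      have hJa := hJ a.1 (hIS _ (hNI _ (hmemI' a ha)))
      exact hJa.2.1 x.1 (hmemJ' a x hx) y.1 (hmemJ' a y hy) hxy)
    (by
      intro a ha b hb
      have hJa := hJ a.1 (hIS _ (hNI _ (hmemI' a ha)))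
      exact (hJa.1 b.1 (hmemJ' a b hb)).2)
    (by
      intro a ha
      have h1 := hmemI' a ha
      rw [hNc, Finset.mem_filter] at h1
      have h2 := h1.2.2
      have h3 : (J' a).card = ((J a.1).filter (fun b => b ∈ C c)).card := by
        show ((J a.1).subtype (fun v => v ∈ C c)).card = _
        rw [Finset.card_subtype]
      rw [h3]
      rw [hK] at h2
      omega)
  rw [hI'c] at hB3
  -- B is an independent set in S
  have hBle : B.card ≤ I.card := by
    have h1 := hmax (B.map (Function.Embedding.subtype _)) (by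
      intro v hv
      rw [Finset.mem_map] at hv
      obtain ⟨b, hb, rfl⟩ := hv
      obtain ⟨a, ha, hba⟩ := hB1 b hb
      have hJa := hJ a.1 (hIS _ (hNI _ (hmemI' a ha)))
      exact (hJa.1 b.1 (hmemJ' a b hba)).1) (by
      intro v hv w hw hvw
      rw [Finset.mem_map] at hv hw
      obtain ⟨b, hb, rfl⟩ := hv
      obtain ⟨b', hb', rfl⟩ := hw
      exact hB2 b hb b' hb' hvw)
    rwa [Finset.card_map] at h1
  have h9 : f * B.card ≤ f * (4 * Nc.card) := Nat.mul_le_mul_left _ (hBle.trans hc)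
  rw [hkdef] at hB3
  nlinarith

end Pool.Agent.X53.Frag
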